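/-
MP_55c1e7_ag, box B3: two-chart linear algebra (coherent sheaves on a family which is covered by
two affine charts), operator form.
`V₁ → V ← V₂` are `A`-linear maps, `t`, `s`, `T` the multiplications by the coordinate, its inverse
and the coordinate.
-/
import Mathlib

open Polynomial

namespace MP55c1e7.FinGen

/-! ### `t`-finite generation -/

section FinOp

variable {A M : Type*} [CommRing A] [AddCommGroup M] [Module A M]

/-- `N` is finitely generated as a `t`-stable submodule -/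
def FinOp (t : Module.End A M) (N : Submodule A M) : Prop :=
  ∃ G : Set M, G.Finite ∧ G ⊆ N ∧ ∀ p : Submodule A M, G ⊆ p → (∀ m ∈ p, t m ∈ p) → N ≤ p

theorem FinOp.of_le [IsNoetherianRing A] {t : Module.End A M} {N p : Submodule A M}
    (h : FinOp t N) (hp : p ≤ N) (hpt : ∀ m ∈ p, t m ∈ p) : FinOp t p := by
  classical
  obtain ⟨G, hG, hGN, hmin⟩ := h
  let of := Module.AEval'.of t
  let toS : (q : Submodule A M) → (∀ m ∈ q, t m ∈ q) → Submodule A[X] (Module.AEval' t) :=
    fun q hq => Module.AEval.mapSubmodule A M t ⟨q, by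
      rw [Module.End.mem_invtSubmodule]
      intro m hm
      exact hq m hm⟩
  have memS : ∀ (q : Submodule A M) (hq : ∀ m ∈ q, t m ∈ q) (m : M), of m ∈ toS q hq ↔ m ∈ q := by
    intro q hq m
    constructor
    · intro hm
      exact (Module.AEval.mem_mapSubmodule_apply (p := ⟨q, _⟩)).1 hm
    · intro hm
      exact (Module.AEval.mem_mapSubmodule_apply (p := ⟨q, _⟩)).2 hm
  let Nh : Submodule A[X] (Module.AEval' t) := Submodule.span A[X] (of '' G)
  have hNh : IsNoetherian A[X] Nh := isNoetherian_span_of_finite A[X] (hG.image _)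
  have hNle : ∀ m ∈ N, of m ∈ Nh := by
    let q : Submodule A M := (Nh.restrictScalars A).comap of.toLinearMap
    have memq : ∀ m, m ∈ q ↔ of m ∈ Nh := fun m => Iff.rfl
    have hq : N ≤ q := by
      apply hmin q
      · intro g hg
        exact (memq g).2 (Submodule.subset_span ⟨g, hg, rfl⟩)
      · intro m hm
        have h := Nh.smul_mem (X : A[X]) ((memq m).1 hm)
        have h2 : (X : A[X]) • of m = of (t m) := Module.AEval'.X_smul_of t m
        exact (memq (t m)).2 (h2 ▸ h)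
    exact fun m hm => hq hm
  have hple : toS p hpt ≤ Nh := by
    intro x hx
    obtain ⟨m, rfl⟩ := of.surjective x
    exact hNle m (hp ((memS p hpt m).1 hx))
  obtain ⟨G', hG'⟩ := (isNoetherian_submodule.1 hNh) _ hple
  refine ⟨of.symm '' (G' : Set (Module.AEval' t)), G'.finite_toSet.image _, ?_, ?_⟩
  · rintro _ ⟨x, hx, rfl⟩
    have hx' : x ∈ toS p hpt := hG' ▸ Submodule.subset_span hx
    have : of (of.symm x) ∈ toS p hpt := by
      rw [LinearEquiv.apply_symm_apply]; exact hx'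
    exact (memS p hpt _).1 this
  · intro q hGq hqt m hm
    have h1 : toS p hpt ≤ toS q hqt := by
      rw [← hG', Submodule.span_le]
      intro x hx
      have : of.symm x ∈ q := hGq ⟨x, hx, rfl⟩
      have := (memS q hqt _).2 this
      rw [LinearEquiv.apply_symm_apply] at this
      exact this
    exact (memS q hqt m).1 (h1 ((memS p hpt m).2 hm))

theorem FinOp.fg_of_nilp {t : Module.End A M} {N : Submodule A M} (h : FinOp t N)
    (hst : ∀ m ∈ N, t m ∈ N) (hn : ∀ m ∈ N, ∃ n : ℕ, (t ^ n) m = 0) : N.FG := by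
  classical
  obtain ⟨G, hG, hGN, hmin⟩ := h
  choose! n hn using hn
  obtain ⟨B, hB⟩ : ∃ B : ℕ, ∀ g ∈ G, n g ≤ B := by
    obtain ⟨B, hB⟩ := (hG.image n).bddAbove
    exact ⟨B, fun g hg => hB ⟨g, hg, rfl⟩⟩
  have hnB : ∀ g ∈ G, ∀ k, B ≤ k → (t ^ k) g = 0 := by
    intro g hg k hk
    obtain ⟨j, rfl⟩ := Nat.exists_eq_add_of_le ((hB g hg).trans hk)
    rw [add_comm, pow_add, Module.End.mul_apply, hn g (hGN hg), map_zero]
  have hS : (⋃ j ∈ Finset.range (B + 1), (fun g => (t ^ j) g) '' G).Finite := by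
    apply Set.Finite.biUnion (Finset.finite_toSet _)
    intro j _
    exact hG.image _
  have hstn : ∀ (j : ℕ) (m : M), m ∈ N → (t ^ j) m ∈ N := by
    intro j
    induction j with
    | zero => intro m hm; simpa using hm
    | succ j ih =>
      intro m hm
      rw [pow_succ, Module.End.mul_apply]
      exact ih _ (hst m hm)
  have : N = Submodule.span A (⋃ j ∈ Finset.range (B + 1), (fun g => (t ^ j) g) '' G) := by
    apply le_antisymm
    · apply hmin
      · intro g hg
        apply Submodule.subset_span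
        simp only [Set.mem_iUnion]
        exact ⟨0, by simp, g, hg, by simp⟩
      · intro m hm
        induction hm using Submodule.span_induction with
        | mem x hx =>
          simp only [Set.mem_iUnion] at hx
          obtain ⟨j, hj, g, hg, rfl⟩ := hx
          have e : t ((t ^ j) g) = (t ^ (j + 1)) g := by
            rw [pow_succ', Module.End.mul_apply]
          change t ((t ^ j) g) ∈ _
          rw [e]
          by_cases hjB : j + 1 < B + 1
          · apply Submodule.subset_span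
            simp only [Set.mem_iUnion]
            exact ⟨j + 1, Finset.mem_range.2 hjB, g, hg, rfl⟩
          · rw [hnB g hg (j + 1) (by omega)]
            exact Submodule.zero_mem _
        | zero => rw [map_zero]; exact Submodule.zero_mem _
        | add x y _ _ hx hy => rw [map_add]; exact Submodule.add_mem _ hx hy
        | smul a x _ hx => rw [map_smul]; exact Submodule.smul_mem _ _ hx
    · rw [Submodule.span_le]
      intro x hx
      simp only [Set.mem_iUnion] at hx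
      obtain ⟨j, hj, g, hg, rfl⟩ := hx
      exact hstn j g (hGN hg)
  rw [this]
  exact Submodule.fg_span hS

end FinOp

/-! ### The ambient lemmas -/

section Ambient

variable {A V : Type*} [CommRing A] [AddCommGroup V] [Module A V]

theorem zz (T : V ≃ₗ[A] V) (a b : ℤ) (v : V) : (T ^ a) ((T ^ b) v) = (T ^ (a + b)) v := by
  rw [zpow_add, LinearEquiv.mul_apply]

theorem symm_eq (T : V ≃ₗ[A] V) (v : V) : T.symm v = (T ^ (-1 : ℤ)) v := by
  rw [zpow_neg_one, LinearEquiv.coe_inv]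

theorem one_eq (T : V ≃ₗ[A] V) (v : V) : T v = (T ^ (1 : ℤ)) v := by
  rw [zpow_one]

/-- two submodules `K₁`, `K₂` of `K`, stable under `T`, `T⁻¹`. -/
structure Pair (T : V ≃ₗ[A] V) (K K₁ K₂ : Submodule A V) : Prop where
  le₁ : K₁ ≤ K
  le₂ : K₂ ≤ K
  st : ∀ v ∈ K, T v ∈ K
  st' : ∀ v ∈ K, T.symm v ∈ K
  st₁ : ∀ v ∈ K₁, T v ∈ K₁
  st₂ : ∀ v ∈ K₂, T.symm v ∈ K₂
  ex₁ : ∀ v ∈ K, ∃ n : ℕ, (T ^ (n : ℤ)) v ∈ K₁
  ex₂ : ∀ v ∈ K, ∃ n : ℕ, (T ^ (-(n : ℤ))) v ∈ K₂

theorem pow_mem (T : V ≃ₗ[A] V) {K : Submodule A V} (h : ∀ v ∈ K, T v ∈ K) (n : ℕ) :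
    ∀ v ∈ K, (T ^ (n : ℤ)) v ∈ K := by
  induction n with
  | zero => intro v hv; simpa using hv
  | succ n ih =>
    intro v hv
    have := ih _ (h v hv)
    rw [one_eq T v, zz] at this
    simpa using this

theorem neg_pow_mem (T : V ≃ₗ[A] V) {K : Submodule A V} (h : ∀ v ∈ K, T.symm v ∈ K) (n : ℕ) :
    ∀ v ∈ K, (T ^ (-(n : ℤ))) v ∈ K := by
  induction n with
  | zero => intro v hv; simpa using hv
  | succ n ih =>
    intro v hv
    have := ih _ (h v hv)
    rw [symm_eq T v, zz] at this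
    have e : (-((n + 1 : ℕ) : ℤ)) = -(n : ℤ) + -1 := by push_cast; ring
    rw [e]
    exact this

/-- `H¹` is finitely generated. -/
theorem Pair.fg_quot {T : V ≃ₗ[A] V} {K K₁ K₂ : Submodule A V} (h : Pair T K K₁ K₂)
    (hG : FinOp (T : V →ₗ[A] V) K₁) :
    ∃ S : Set V, S.Finite ∧ S ⊆ K ∧ K ≤ Submodule.span A S ⊔ K₁ ⊔ K₂ := by
  classical
  obtain ⟨G, hG, hGN, hmin⟩ := hG
  obtain ⟨B, hB⟩ : ∃ B : ℕ, ∀ g ∈ G, (T ^ (-(B : ℤ))) g ∈ K₂ := by
    have h2 : ∀ g ∈ G, ∃ n : ℕ, (T ^ (-(n : ℤ))) g ∈ K₂ := fun g hg => h.ex₂ g (h.le₁ (hGN hg))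
    choose! n hn using h2
    obtain ⟨B, hB⟩ := (hG.image n).bddAbove
    refine ⟨B, fun g hg => ?_⟩
    have hle : n g ≤ B := hB ⟨g, hg, rfl⟩
    have := neg_pow_mem T h.st₂ (B - n g) _ (hn g hg)
    rw [zz] at this
    have e : (-((B - n g : ℕ) : ℤ)) + -(n g : ℤ) = -(B : ℤ) := by
      rw [Nat.cast_sub hle]; ring
    rwa [e] at this
  let S : Set V := ⋃ j ∈ Finset.range B, (fun g => (T ^ (-(j : ℤ))) g) '' G
  have hS : S.Finite := by
    apply Set.Finite.biUnion (Finset.finite_toSet _)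
    intro j _
    exact hG.image _
  refine ⟨S, hS, ?_, ?_⟩
  · intro x hx
    simp only [S, Set.mem_iUnion] at hx
    obtain ⟨j, hj, g, hg, rfl⟩ := hx
    exact neg_pow_mem T h.st' j g (h.le₁ (hGN hg))
  · set Q := Submodule.span A S ⊔ K₁ ⊔ K₂ with hQ
    have hK1Q : K₁ ≤ Q := le_sup_right.trans le_sup_left
    have hK2Q : K₂ ≤ Q := le_sup_right
    have hSQ : Submodule.span A S ≤ Q := le_sup_left.trans le_sup_left
    have key : ∀ m ∈ K₁, ∀ n : ℕ, (T ^ (-(n : ℤ))) m ∈ Q := by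
      let p : Submodule A V :=
        K₁ ⊓ ⨅ n : ℕ, Q.comap ((T ^ (-(n : ℤ)) : V ≃ₗ[A] V) : V →ₗ[A] V)
      have memp : ∀ m, m ∈ p ↔ m ∈ K₁ ∧ ∀ n : ℕ, (T ^ (-(n : ℤ))) m ∈ Q := by
        intro m
        simp only [p, Submodule.mem_inf, Submodule.mem_iInf, Submodule.mem_comap]
        rfl
      have hp : K₁ ≤ p := by
        apply hmin
        · intro g hg
          refine (memp g).2 ⟨hGN hg, fun n => ?_⟩
          by_cases hn : n < B
          · apply hSQ
            apply Submodule.subset_span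
            simp only [S, Set.mem_iUnion]
            exact ⟨n, Finset.mem_range.2 hn, g, hg, rfl⟩
          · apply hK2Q
            have := neg_pow_mem T h.st₂ (n - B) _ (hB g hg)
            rw [zz] at this
            have e : (-((n - B : ℕ) : ℤ)) + -(B : ℤ) = -(n : ℤ) := by
              rw [Nat.cast_sub (by omega)]; ring
            rwa [e] at this
        · intro m hm
          obtain ⟨hm1, hm2⟩ := (memp m).1 hm
          refine (memp _).2 ⟨h.st₁ m hm1, fun n => ?_⟩
          cases n with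
          | zero =>
            have := hK1Q (h.st₁ m hm1)
            simpa using this
          | succ n =>
            have := hm2 n
            have e : (T ^ (-((n + 1 : ℕ) : ℤ))) ((T : V →ₗ[A] V) m) = (T ^ (-(n : ℤ))) m := by
              change (T ^ (-((n + 1 : ℕ) : ℤ))) (T m) = _
              rw [one_eq T m, zz]
              congr 2
              push_cast; ring
            rw [e]
            exact this
      exact fun m hm => ((memp m).1 (hp hm)).2
    intro v hv
    obtain ⟨n, hn⟩ := h.ex₁ v hv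
    have := key _ hn n
    rw [zz] at this
    simpa using this

/-- the shift on `(ι × ℤ) →₀ A` -/
noncomputable def shift (A ι : Type*) [CommRing A] : ((ι × ℤ) →₀ A) ≃ₗ[A] ((ι × ℤ) →₀ A) :=
  Finsupp.domLCongr ((Equiv.refl ι).prodCongr (Equiv.addRight (1 : ℤ)))

theorem shift_single {ι : Type*} (i : ι) (n : ℤ) (a : A) :
    shift A ι (Finsupp.single (i, n) a) = Finsupp.single (i, n + 1) a := by
  simp [shift]

theorem shift_symm_single {ι : Type*} (i : ι) (n : ℤ) (a : A) :
    (shift A ι).symm (Finsupp.single (i, n) a) = Finsupp.single (i, n - 1) a := by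
  rw [LinearEquiv.symm_apply_eq, shift_single]
  simp

theorem shift_zpow_single {ι : Type*} (i : ι) (n k : ℤ) (a : A) :
    (shift A ι ^ k) (Finsupp.single (i, n) a) = Finsupp.single (i, n + k) a := by
  induction k with
  | zero => simp
  | succ k ih =>
    have e : ((k : ℤ) + 1) = 1 + (k : ℤ) := by ring
    rw [e, ← zz, ih, zpow_one, shift_single]
    congr 2; ring
  | pred k ih =>
    have e : (-(k : ℤ) - 1) = -1 + -(k : ℤ) := by ring
    rw [e, ← zz, ih, ← symm_eq, shift_symm_single]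
    congr 2; ring

/-- functions supported in degrees `≥ a` -/
noncomputable def Lge (A ι : Type*) [CommRing A] (a : ℤ) : Submodule A ((ι × ℤ) →₀ A) :=
  Finsupp.supported A A {p | a ≤ p.2}

noncomputable def Lle (A ι : Type*) [CommRing A] (b : ℤ) : Submodule A ((ι × ℤ) →₀ A) :=
  Finsupp.supported A A {p | p.2 ≤ b}

theorem Lge_eq_span (ι : Type*) (a : ℤ) : Lge A ι a =
    Submodule.span A ((fun p => Finsupp.single p (1 : A)) '' {p | a ≤ p.2}) :=
  Finsupp.supported_eq_span_single _ _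

theorem Lle_eq_span (ι : Type*) (a : ℤ) : Lle A ι a =
    Submodule.span A ((fun p => Finsupp.single p (1 : A)) '' {p | p.2 ≤ a}) :=
  Finsupp.supported_eq_span_single _ _

theorem shift_mem_Lge (ι : Type*) (a k : ℤ) (v : (ι × ℤ) →₀ A) (hv : v ∈ Lge A ι a) :
    (shift A ι ^ k) v ∈ Lge A ι (a + k) := by
  rw [Lge_eq_span] at hv
  induction hv using Submodule.span_induction with
  | mem x hx =>
    obtain ⟨⟨i, n⟩, hn, rfl⟩ := hx
    change (shift A ι ^ k) (Finsupp.single (i, n) 1) ∈ _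
    rw [shift_zpow_single]
    apply Finsupp.single_mem_supported
    simp only [Set.mem_ofPred_eq] at hn ⊢
    omega
  | zero => rw [map_zero]; exact Submodule.zero_mem _
  | add x y _ _ hx hy => rw [map_add]; exact Submodule.add_mem _ hx hy
  | smul a x _ hx => rw [map_smul]; exact Submodule.smul_mem _ _ hx

theorem shift_mem_Lle (ι : Type*) (a k : ℤ) (v : (ι × ℤ) →₀ A) (hv : v ∈ Lle A ι a) :
    (shift A ι ^ k) v ∈ Lle A ι (a + k) := by
  rw [Lle_eq_span] at hv
  induction hv using Submodule.span_induction with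
  | mem x hx =>
    obtain ⟨⟨i, n⟩, hn, rfl⟩ := hx
    change (shift A ι ^ k) (Finsupp.single (i, n) 1) ∈ _
    rw [shift_zpow_single]
    apply Finsupp.single_mem_supported
    simp only [Set.mem_ofPred_eq] at hn ⊢
    omega
  | zero => rw [map_zero]; exact Submodule.zero_mem _
  | add x y _ _ hx hy => rw [map_add]; exact Submodule.add_mem _ hx hy
  | smul a x _ hx => rw [map_smul]; exact Submodule.smul_mem _ _ hx

theorem exists_mem_Lge (ι : Type*) (v : (ι × ℤ) →₀ A) : ∃ n : ℕ, v ∈ Lge A ι (-(n : ℤ)) := by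
  classical
  obtain ⟨B, hB⟩ := ((v.support.finite_toSet).image (fun p => p.2.natAbs)).bddAbove
  refine ⟨B, ?_⟩
  rw [Lge, Finsupp.mem_supported]
  intro p hp
  have : p.2.natAbs ≤ B := hB ⟨p, hp, rfl⟩
  simp only [Set.mem_ofPred_eq]
  omega

theorem exists_mem_Lle (ι : Type*) (v : (ι × ℤ) →₀ A) : ∃ n : ℕ, v ∈ Lle A ι (n : ℤ) := by
  classical
  obtain ⟨B, hB⟩ := ((v.support.finite_toSet).image (fun p => p.2.natAbs)).bddAbove
  refine ⟨B, ?_⟩
  rw [Lle, Finsupp.mem_supported]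
  intro p hp
  have : p.2.natAbs ≤ B := hB ⟨p, hp, rfl⟩
  simp only [Set.mem_ofPred_eq]
  omega

theorem Lge_anti (ι : Type*) {a b : ℤ} (h : a ≤ b) : Lge A ι b ≤ Lge A ι a :=
  Finsupp.supported_mono fun _ hp => le_trans h hp

theorem Lle_mono (ι : Type*) {a b : ℤ} (h : a ≤ b) : Lle A ι a ≤ Lle A ι b :=
  Finsupp.supported_mono fun _ hp => le_trans hp h

theorem finOp_Lge (ι : Type*) [Finite ι] :
    FinOp ((shift A ι : ((ι × ℤ) →₀ A) →ₗ[A] ((ι × ℤ) →₀ A))) (Lge A ι 0) := by
  refine ⟨Set.range fun i : ι => Finsupp.single (i, (0 : ℤ)) (1 : A), Set.finite_range _, ?_, ?_⟩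
  · rintro _ ⟨i, rfl⟩
    exact Finsupp.single_mem_supported _ _ (by simp)
  · intro p hp hst
    rw [Lge_eq_span, Submodule.span_le]
    rintro _ ⟨⟨i, n⟩, hn, rfl⟩
    simp only [Set.mem_ofPred_eq] at hn
    obtain ⟨k, rfl⟩ := Int.eq_ofNat_of_zero_le hn
    have h0 : Finsupp.single (i, (0 : ℤ)) (1 : A) ∈ p := hp ⟨i, rfl⟩
    have := pow_mem (shift A ι) hst k _ h0
    rw [shift_zpow_single, zero_add] at this
    exact this

theorem exists_add (ι : Type*) (m : ℕ) (v : (ι × ℤ) →₀ A) :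
    ∃ a ∈ Lge A ι 0, ∃ b ∈ Lle A ι (m : ℤ), v = a + b := by
  classical
  refine ⟨v.filter (fun p => 0 ≤ p.2), ?_, v.filter (fun p => ¬ 0 ≤ p.2), ?_, ?_⟩
  · rw [Lge, Finsupp.mem_supported]
    intro p hp
    simp only [Finsupp.support_filter, Finset.coe_filter, Set.mem_ofPred_eq] at hp
    exact hp.2
  · rw [Lle, Finsupp.mem_supported]
    intro p hp
    simp only [Finsupp.support_filter, Finset.coe_filter, Set.mem_ofPred_eq] at hp ⊢
    omega
  · exact (Finsupp.filter_add_filter_not v _).symm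

theorem fg_Lge_inf_Lle (ι : Type*) [Finite ι] (m : ℕ) :
    (Lge A ι 0 ⊓ Lle A ι (m : ℤ)).FG := by
  have h1 : Lge A ι 0 ⊓ Lle A ι (m : ℤ) ≤
      Submodule.span A ((fun p => Finsupp.single p (1 : A)) '' (Set.univ ×ˢ Set.Icc (0 : ℤ) m)) := by
    rw [Lge, Lle, ← Finsupp.supported_inter, ← Finsupp.supported_eq_span_single]
    apply Finsupp.supported_mono
    rintro ⟨i, n⟩ ⟨h1, h2⟩
    exact ⟨Set.mem_univ _, h1, h2⟩
  have h2 : Submodule.span A ((fun p => Finsupp.single p (1 : A)) ''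
      ((Set.univ : Set ι) ×ˢ Set.Icc (0 : ℤ) m)) ≤ Lge A ι 0 ⊓ Lle A ι (m : ℤ) := by
    rw [Submodule.span_le]
    rintro _ ⟨⟨i, n⟩, ⟨-, h1, h2⟩, rfl⟩
    exact ⟨Finsupp.single_mem_supported _ _ h1, Finsupp.single_mem_supported _ _ h2⟩
  rw [le_antisymm h1 h2]
  apply Submodule.fg_span
  apply Set.Finite.image
  exact Set.Finite.prod Set.finite_univ (Set.finite_Icc _ _)

/-- `H⁰` is finitely generated (ambient form). -/
theorem fg_inf [IsNoetherianRing A] (T : V ≃ₗ[A] V) {V₁ V₂ : Submodule A V}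
    (h₁ : FinOp (T : V →ₗ[A] V) V₁) (h₂ : FinOp (T.symm : V →ₗ[A] V) V₂)
    (hex : ∀ v ∈ V₂, ∃ n : ℕ, (T ^ (n : ℤ)) v ∈ V₁) : (V₁ ⊓ V₂).FG := by
  classical
  obtain ⟨G₁, hG₁, hGV₁, hmin₁⟩ := h₁
  obtain ⟨G₂, hG₂, hGV₂, hmin₂⟩ := h₂
  have : Finite G₁ := hG₁
  let ι := G₁
  let π : ((ι × ℤ) →₀ A) →ₗ[A] V := Finsupp.linearCombination A (fun p : ι × ℤ => (T ^ p.2) (p.1 : V))
  have hπ : ∀ (k : ℤ) (v : (ι × ℤ) →₀ A), π ((shift A ι ^ k) v) = (T ^ k) (π v) := by
    intro k v
    induction v using Finsupp.induction_linear with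
    | zero => simp
    | add f g hf hg => rw [map_add, map_add, hf, hg, map_add, map_add]
    | single p a =>
      obtain ⟨i, n⟩ := p
      rw [shift_zpow_single]
      simp only [π, Finsupp.linearCombination_single, map_smul]
      rw [zz, add_comm]
  have hπ1 : ∀ (v : (ι × ℤ) →₀ A), π (shift A ι v) = T (π v) := by
    intro v
    have := hπ 1 v
    simpa using this
  have hπ2 : ∀ (v : (ι × ℤ) →₀ A), π ((shift A ι).symm v) = T.symm (π v) := by
    intro v
    have := hπ (-1) v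
    rwa [← symm_eq, ← symm_eq] at this
  -- V₁ ≤ π(L≥0)
  have hV₁ : V₁ ≤ (Lge A ι 0).map π := by
    apply hmin₁
    · intro g hg
      refine ⟨Finsupp.single (⟨g, hg⟩, (0 : ℤ)) 1, Finsupp.single_mem_supported _ _ (by simp), ?_⟩
      simp [π]
    · rintro _ ⟨l, hl, rfl⟩
      refine ⟨shift A ι l, ?_, hπ1 l⟩
      have := shift_mem_Lge ι 0 1 l hl
      rw [zpow_one] at this
      exact Lge_anti ι (by norm_num) this
  -- bound for V₂
  have hb : ∀ g ∈ G₂, ∃ n : ℕ, g ∈ (Lle A ι (n : ℤ)).map π := by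
    intro g hg
    obtain ⟨n, hn⟩ := hex g (hGV₂ hg)
    obtain ⟨l, hl, hlg⟩ := hV₁ hn
    obtain ⟨k, hk⟩ := exists_mem_Lle ι ((shift A ι ^ (-(n : ℤ))) l)
    refine ⟨k, _, hk, ?_⟩
    rw [hπ, hlg, zz]
    simp
  choose! nb hnb using hb
  obtain ⟨m, hm⟩ : ∃ m : ℕ, ∀ g ∈ G₂, nb g ≤ m := by
    obtain ⟨B, hB⟩ := (hG₂.image nb).bddAbove
    exact ⟨B, fun g hg => hB ⟨g, hg, rfl⟩⟩
  have hV₂ : V₂ ≤ (Lle A ι (m : ℤ)).map π := by
    apply hmin₂
    · intro g hg
      exact Submodule.map_mono (Lle_mono ι (by exact_mod_cast hm g hg)) (hnb g hg)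
    · rintro _ ⟨l, hl, rfl⟩
      refine ⟨(shift A ι).symm l, ?_, hπ2 l⟩
      have := shift_mem_Lle ι m (-1) l hl
      rw [← symm_eq] at this
      exact Lle_mono ι (by linarith) this
  -- the kernel
  let K : Submodule A ((ι × ℤ) →₀ A) := LinearMap.ker π
  have hKst : ∀ v ∈ K, shift A ι v ∈ K := by
    intro v hv
    rw [LinearMap.mem_ker] at hv ⊢
    rw [hπ1, hv, map_zero]
  have hKst' : ∀ v ∈ K, (shift A ι).symm v ∈ K := by
    intro v hv
    rw [LinearMap.mem_ker] at hv ⊢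
    rw [hπ2, hv, map_zero]
  have hLst : ∀ v ∈ Lge A ι 0, shift A ι v ∈ Lge A ι 0 := by
    intro l hl
    have := shift_mem_Lge ι 0 1 l hl
    rw [zpow_one] at this
    exact Lge_anti ι (by norm_num) this
  have hLst' : ∀ v ∈ Lle A ι (m : ℤ), (shift A ι).symm v ∈ Lle A ι (m : ℤ) := by
    intro l hl
    have := shift_mem_Lle ι m (-1) l hl
    rw [← symm_eq] at this
    exact Lle_mono ι (by linarith) this
  have hP : Pair (shift A ι) K (K ⊓ Lge A ι 0) (K ⊓ Lle A ι (m : ℤ)) :=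
    { le₁ := inf_le_left
      le₂ := inf_le_left
      st := hKst
      st' := hKst'
      st₁ := fun v hv => ⟨hKst v hv.1, hLst v hv.2⟩
      st₂ := fun v hv => ⟨hKst' v hv.1, hLst' v hv.2⟩
      ex₁ := fun v hv => by
        obtain ⟨n, hn⟩ := exists_mem_Lge ι v
        refine ⟨n, pow_mem _ hKst n v hv, ?_⟩
        have := shift_mem_Lge ι _ (n : ℤ) v hn
        simpa using this
      ex₂ := fun v hv => by
        obtain ⟨n, hn⟩ := exists_mem_Lle ι v
        refine ⟨n, neg_pow_mem _ hKst' n v hv, ?_⟩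
        have := shift_mem_Lle ι _ (-(n : ℤ)) v hn
        rw [add_neg_cancel] at this
        exact Lle_mono ι (by positivity) this }
  have hfin : FinOp ((shift A ι : ((ι × ℤ) →₀ A) →ₗ[A] ((ι × ℤ) →₀ A))) (K ⊓ Lge A ι 0) :=
    (finOp_Lge ι).of_le inf_le_right (fun v hv => ⟨hKst v hv.1, hLst v hv.2⟩)
  obtain ⟨S, hS, hSK, hKS⟩ := hP.fg_quot hfin
  choose a ha b hb' hab using exists_add (A := A) ι m
  -- final FG module
  let F : Submodule A ((ι × ℤ) →₀ A) := Submodule.span A (a '' S) ⊔ (Lge A ι 0 ⊓ Lle A ι (m : ℤ))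
  have hF : F.FG := (Submodule.fg_span (hS.image a)).sup (fg_Lge_inf_Lle ι m)
  have hle : V₁ ⊓ V₂ ≤ F.map π := by
    rintro v ⟨hv1, hv2⟩
    obtain ⟨l₁, hl₁, rfl⟩ := hV₁ hv1
    obtain ⟨l₂, hl₂, hl⟩ := hV₂ hv2
    have hk : l₁ - l₂ ∈ K := by
      rw [LinearMap.mem_ker, map_sub, hl, sub_self]
    have hPle : K ≤ (Submodule.span A (a '' S) ⊔ (K ⊓ Lge A ι 0)) ⊔ Lle A ι (m : ℤ) := by
      refine hKS.trans (sup_le (sup_le ?_ ?_) ?_)
      · rw [Submodule.span_le]
        intro σ hσ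
        rw [SetLike.mem_coe, hab σ]
        apply Submodule.add_mem_sup
        · exact Submodule.mem_sup_left (Submodule.subset_span ⟨σ, hσ, rfl⟩)
        · exact hb' σ
      · exact le_sup_right.trans le_sup_left
      · exact inf_le_right.trans le_sup_right
    obtain ⟨p, hp, q, hq, hpq⟩ := Submodule.mem_sup.1 (hPle hk)
    have hpL : p ∈ Lge A ι 0 := by
      have : Submodule.span A (a '' S) ⊔ (K ⊓ Lge A ι 0) ≤ Lge A ι 0 := by
        apply sup_le _ inf_le_right
        rw [Submodule.span_le]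
        rintro _ ⟨σ, hσ, rfl⟩
        exact ha σ
      exact this hp
    obtain ⟨x, hx, y, hy, hxy⟩ := Submodule.mem_sup.1 hp
    have h0 : l₁ - p = l₂ + q := by
      rw [← hxy] at hpq ⊢
      have : l₁ = l₂ + (x + y + q) := by rw [hpq]; abel
      rw [this]; abel
    have h1 : l₁ - p ∈ Lge A ι 0 ⊓ Lle A ι (m : ℤ) := by
      refine ⟨Submodule.sub_mem _ hl₁ hpL, ?_⟩
      rw [h0]
      exact Submodule.add_mem _ hl₂ hq
    refine ⟨x + (l₁ - p), ?_, ?_⟩
    · exact Submodule.add_mem_sup hx h1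
    · have hy0 : π y = 0 := hy.1
      rw [map_add, map_sub, ← hxy, map_add, hy0]
      abel
  have hN : IsNoetherian A (F.map π) := isNoetherian_of_fg_of_noetherian _ (hF.map π)
  exact (isNoetherian_submodule.1 hN) _ hle

end Ambient

end MP55c1e7.FinGen
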