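/-
MP_55c1e7_ag, box B.  Linear algebra of a quasi-coherent sheaf on a scheme covered by two affine
charts `U1`, `U2` over an affine base `Spec S`, with a coordinate `t` on `U1` and `1/t` on `U2`
(a closed subscheme of the projective line over `S`).
-/
import Mathlib

namespace MP55c1e7

/-- Two charts: `F1` on `U1` (with multiplication by `t`), `F2` on `U2` (with multiplication by
`1/t`), `F12` on the overlap. -/
structure TC (S : Type*) [CommRing S] (F1 F2 F12 : Type*)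
    [AddCommGroup F1] [Module S F1] [AddCommGroup F2] [Module S F2]
    [AddCommGroup F12] [Module S F12] where
  t1 : F1 →ₗ[S] F1
  t2 : F2 →ₗ[S] F2
  T : F12 ≃ₗ[S] F12
  r1 : F1 →ₗ[S] F12
  r2 : F2 →ₗ[S] F12
  h1 : ∀ a, r1 (t1 a) = T (r1 a)
  h2 : ∀ b, r2 (t2 b) = T⁻¹ (r2 b)
  loc1 : ∀ z, ∃ n : ℕ, ∃ a, r1 a = (T ^ n) z
  loc2 : ∀ z, ∃ n : ℕ, ∃ b, r2 b = ((T⁻¹) ^ n) z
  ker1 : ∀ a, r1 a = 0 → ∃ n : ℕ, (t1 ^ n) a = 0
  ker2 : ∀ b, r2 b = 0 → ∃ n : ℕ, (t2 ^ n) b = 0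

namespace TC

variable {S : Type*} [CommRing S] {F1 F2 F12 : Type*}
    [AddCommGroup F1] [Module S F1] [AddCommGroup F2] [Module S F2]
    [AddCommGroup F12] [Module S F12]

/-- exchange the two charts -/
def swap (A : TC S F1 F2 F12) : TC S F2 F1 F12 where
  t1 := A.t2
  t2 := A.t1
  T := A.T⁻¹
  r1 := A.r2
  r2 := A.r1
  h1 := A.h2
  h2 a := by rw [inv_inv]; exact A.h1 a
  loc1 := A.loc2
  loc2 z := by
    obtain ⟨n, a, h⟩ := A.loc1 z
    exact ⟨n, a, by rw [inv_inv]; exact h⟩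
  ker1 := A.ker2
  ker2 := A.ker1

@[simp] theorem swap_t1 (A : TC S F1 F2 F12) : A.swap.t1 = A.t2 := rfl
@[simp] theorem swap_t2 (A : TC S F1 F2 F12) : A.swap.t2 = A.t1 := rfl
@[simp] theorem swap_T (A : TC S F1 F2 F12) : A.swap.T = A.T⁻¹ := rfl
@[simp] theorem swap_r1 (A : TC S F1 F2 F12) : A.swap.r1 = A.r2 := rfl
@[simp] theorem swap_r2 (A : TC S F1 F2 F12) : A.swap.r2 = A.r1 := rfl

/-- global sections of the twist by `n`: pairs `(a, b)` with `a = t^n b` on the overlap -/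
def H0 (A : TC S F1 F2 F12) (n : ℤ) : Submodule S (F1 × F2) where
  carrier := {m | A.r1 m.1 = (A.T ^ n) (A.r2 m.2)}
  add_mem' := by
    intro m m' h h'
    change A.r1 m.1 = (A.T ^ n) (A.r2 m.2) at h
    change A.r1 m'.1 = (A.T ^ n) (A.r2 m'.2) at h'
    change A.r1 (m.1 + m'.1) = (A.T ^ n) (A.r2 (m.2 + m'.2))
    rw [map_add, map_add, map_add, h, h']
  zero_mem' := by simp
  smul_mem' := by
    intro c m h
    change A.r1 m.1 = (A.T ^ n) (A.r2 m.2) at h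
    change A.r1 (c • m.1) = (A.T ^ n) (A.r2 (c • m.2))
    rw [map_smul, map_smul, map_smul, h]

theorem mem_H0 (A : TC S F1 F2 F12) {n : ℤ} {m : F1 × F2} :
    m ∈ A.H0 n ↔ A.r1 m.1 = (A.T ^ n) (A.r2 m.2) := Iff.rfl

/-- vanishing of the first cohomology of the twist by `n` -/
def Van (A : TC S F1 F2 F12) (n : ℤ) : Prop :=
  ∀ z : F12, ∃ a b, z = A.r1 a + (A.T ^ n) (A.r2 b)

theorem T_pow_r1 (A : TC S F1 F2 F12) (n : ℕ) (a : F1) :
    A.r1 ((A.t1 ^ n) a) = (A.T ^ n) (A.r1 a) := by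
  induction n generalizing a with
  | zero => simp
  | succ n ih =>
    rw [pow_succ, Module.End.mul_apply, ih, A.h1, pow_succ, LinearEquiv.mul_apply]

theorem T_pow_r2 (A : TC S F1 F2 F12) (n : ℕ) (b : F2) :
    A.r2 ((A.t2 ^ n) b) = ((A.T⁻¹) ^ n) (A.r2 b) := A.swap.T_pow_r1 n b

theorem zpow_apply_add (T : F12 ≃ₗ[S] F12) (m n : ℤ) (z : F12) :
    (T ^ (m + n)) z = (T ^ m) ((T ^ n) z) := by
  rw [zpow_add, LinearEquiv.mul_apply]

theorem T_inv_T (T : F12 ≃ₗ[S] F12) (z : F12) : T (T⁻¹ z) = z := T.apply_symm_apply z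

theorem inv_T_T (T : F12 ≃ₗ[S] F12) (z : F12) : T⁻¹ (T z) = z := T.symm_apply_apply z

theorem van_succ (A : TC S F1 F2 F12) {n : ℤ} (h : A.Van n) : A.Van (n + 1) := by
  intro z
  obtain ⟨a, b, hab⟩ := h (A.T⁻¹ z)
  refine ⟨A.t1 a, b, ?_⟩
  rw [A.h1, add_comm n 1, zpow_apply_add, zpow_one, ← map_add, ← hab]
  exact (A.T.apply_symm_apply z).symm

theorem van_mono (A : TC S F1 F2 F12) {n m : ℤ} (h : A.Van n) (hnm : n ≤ m) : A.Van m := by
  obtain ⟨k, rfl⟩ := Int.le.dest hnm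
  clear hnm
  induction k with
  | zero => simpa using h
  | succ k ih =>
    have := A.van_succ ih
    rwa [add_assoc] at this

theorem van_swap (A : TC S F1 F2 F12) {n : ℤ} (h : A.Van n) : A.swap.Van n := by
  intro z
  obtain ⟨a, b, hab⟩ := h ((A.T ^ n) z)
  refine ⟨b, a, ?_⟩
  simp only [swap_T, swap_r1, swap_r2]
  rw [inv_zpow', add_comm]
  have : z = (A.T ^ (-n)) ((A.T ^ n) z) := by
    rw [← zpow_apply_add]; simp
  rw [this, hab, map_add, ← zpow_apply_add, neg_add_cancel, zpow_zero]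
  rfl

/-- multiplication by the section `s1` -/
theorem s1_mem (A : TC S F1 F2 F12) {n : ℤ} {m : F1 × F2} (h : m ∈ A.H0 n) :
    (m.1, A.t2 m.2) ∈ A.H0 (n + 1) := by
  rw [mem_H0] at *
  rw [A.h2, h, zpow_apply_add, zpow_one]
  congr 1
  exact (A.T.apply_symm_apply _).symm

/-- multiplication by the section `s2` -/
theorem s2_mem (A : TC S F1 F2 F12) {n : ℤ} {m : F1 × F2} (h : m ∈ A.H0 n) :
    (A.t1 m.1, m.2) ∈ A.H0 (n + 1) := by
  rw [mem_H0] at *
  dsimp only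
  rw [A.h1, h, add_comm n 1, zpow_apply_add, zpow_one]

theorem s1_pow_mem (A : TC S F1 F2 F12) {n : ℤ} (k : ℕ) {m : F1 × F2} (h : m ∈ A.H0 n) :
    (m.1, (A.t2 ^ k) m.2) ∈ A.H0 (n + k) := by
  induction k with
  | zero => simpa using h
  | succ k ih =>
    have := A.s1_mem ih
    dsimp only at this
    rw [pow_succ', Module.End.mul_apply, Nat.cast_succ, ← add_assoc]
    exact this

theorem s2_pow_mem (A : TC S F1 F2 F12) {n : ℤ} (k : ℕ) {m : F1 × F2} (h : m ∈ A.H0 n) :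
    ((A.t1 ^ k) m.1, m.2) ∈ A.H0 (n + k) := by
  induction k with
  | zero => simpa using h
  | succ k ih =>
    have := A.s2_mem ih
    dsimp only at this
    rw [pow_succ', Module.End.mul_apply, Nat.cast_succ, ← add_assoc]
    exact this

theorem mem_swap_H0 (A : TC S F1 F2 F12) {n : ℤ} {m : F1 × F2} :
    (m.2, m.1) ∈ A.swap.H0 n ↔ m ∈ A.H0 n := by
  rw [mem_H0, mem_H0]
  simp only [swap_T, swap_r1, swap_r2]
  constructor
  · intro h
    rw [h, inv_zpow', ← zpow_apply_add]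
    simp
  · intro h
    rw [h, inv_zpow', ← zpow_apply_add]
    simp

/-- every local section on `U1` extends after twisting enough -/
theorem exists_mem_H0 (A : TC S F1 F2 F12) (a : F1) : ∃ (n : ℕ) (b : F2), (a, b) ∈ A.H0 n := by
  obtain ⟨n, b, hb⟩ := A.loc2 (A.r1 a)
  refine ⟨n, b, ?_⟩
  rw [mem_H0]
  dsimp only
  rw [hb, zpow_natCast, inv_pow]
  exact ((A.T ^ n).apply_symm_apply _).symm

/-- Koszul: if `H^1` of the twist by `n - 2` vanishes then the sections of the twist by `n`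
are generated by those of the twist by `n - 1`. -/
theorem koszul_surj (A : TC S F1 F2 F12) {n : ℤ} (h : A.Van n) {m : F1 × F2}
    (hm : m ∈ A.H0 (n + 2)) :
    ∃ x ∈ A.H0 (n + 1), ∃ y ∈ A.H0 (n + 1), m = (x.1 + A.t1 y.1, A.t2 x.2 + y.2) := by
  -- local lift: `x = (a, 0)`, `y = (0, b)`; the error is `r1 a` on the overlap
  obtain ⟨a, b⟩ := m
  rw [mem_H0] at hm
  dsimp only at hm
  -- the pair of local lifts: on U1 (a, 0), on U2 (0, b)
  -- difference on the overlap is (-T c, c)-type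
  obtain ⟨c, d, hcd⟩ := h (A.T⁻¹ (A.r1 a))
  have hT : A.T (A.T⁻¹ (A.r1 a)) = A.r1 a := A.T.apply_symm_apply _
  have h1 : A.r1 a = A.r1 (A.t1 c) + (A.T ^ (n + 1)) (A.r2 d) := by
    rw [← hT, hcd, map_add, A.h1, add_comm n 1, zpow_apply_add, zpow_one]
  have hTd : A.T (A.r2 (A.t2 d)) = A.r2 d := by
    rw [A.h2]; exact A.T.apply_symm_apply _
  refine ⟨(a - A.t1 c, d), ?_, (c, b - A.t2 d), ?_, ?_⟩
  · rw [mem_H0]
    dsimp only
    rw [map_sub, h1]
    abel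
  · rw [mem_H0]
    dsimp only
    rw [map_sub, map_sub]
    have h2 : (A.T ^ (n + 1)) (A.r2 (A.t2 d)) = (A.T ^ n) (A.r2 d) := by
      rw [zpow_apply_add, zpow_one, hTd]
    rw [h2]
    have h3 : (A.T ^ (n + 1)) (A.r2 b) = A.T⁻¹ (A.r1 a) := by
      rw [hm]
      have : (n + 2 : ℤ) = 1 + (n + 1) := by ring
      rw [this, zpow_apply_add A.T 1 (n + 1), zpow_one, inv_T_T]
    rw [h3, hcd]
    abel
  · ext
    · simp
    · simp

/-! ### generation and conservativity -/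

/-- If `H^1` of the twist by `-1` vanishes, then `F1` is generated over `S[t1]` by the global
sections. -/
theorem gen1 (A : TC S F1 F2 F12) (h : A.Van (-1)) (N : Submodule S F1)
    (hN : ∀ a ∈ N, A.t1 a ∈ N) (h0 : ∀ m ∈ A.H0 0, m.1 ∈ N) : N = ⊤ := by
  have key : ∀ (k : ℕ), ∀ m ∈ A.H0 (k : ℤ), m.1 ∈ N := by
    intro k
    induction k with
    | zero => exact h0
    | succ k ih =>
      intro m hm
      have hv : A.Van ((k : ℤ) - 1) := A.van_mono h (by omega)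
      have hm' : m ∈ A.H0 ((k : ℤ) - 1 + 2) := by
        have : ((k : ℤ) - 1 + 2) = ((k + 1 : ℕ) : ℤ) := by push_cast; ring
        rw [this]; exact hm
      obtain ⟨x, hx, y, hy, hxy⟩ := A.koszul_surj hv hm'
      have e : ((k : ℤ) - 1 + 1) = k := by ring
      rw [e] at hx hy
      rw [hxy]
      exact N.add_mem (ih x hx) (hN _ (ih y hy))
  rw [eq_top_iff]
  intro a _
  obtain ⟨n, b, hb⟩ := A.exists_mem_H0 a
  exact key n _ hb

theorem gen2 (A : TC S F1 F2 F12) (h : A.Van (-1)) (N : Submodule S F2)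
    (hN : ∀ a ∈ N, A.t2 a ∈ N) (h0 : ∀ m ∈ A.H0 0, m.2 ∈ N) : N = ⊤ := by
  apply A.swap.gen1 (A.van_swap h) N hN
  intro m hm
  exact h0 (m.2, m.1) (A.mem_swap_H0.mp hm)

theorem cons1 (A : TC S F1 F2 F12) (h : A.Van (-1)) (h0 : ∀ m ∈ A.H0 0, m = 0) (a : F1) :
    a = 0 := by
  have := A.gen1 h ⊥ (by
    intro a ha
    rw [Submodule.mem_bot] at ha ⊢
    rw [ha, map_zero]) (by
    intro m hm
    rw [h0 m hm]
    simp)
  have h2 : a ∈ (⊥ : Submodule S F1) := by rw [this]; trivial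
  simpa using h2

theorem cons2 (A : TC S F1 F2 F12) (h : A.Van (-1)) (h0 : ∀ m ∈ A.H0 0, m = 0) (b : F2) :
    b = 0 := by
  apply A.swap.cons1 (A.van_swap h)
  intro m hm
  have := h0 (m.2, m.1) (A.mem_swap_H0.mp hm)
  have h1 : m.2 = 0 := congrArg Prod.fst this
  have h2 : m.1 = 0 := congrArg Prod.snd this
  exact Prod.ext h2 h1

theorem cons12 (A : TC S F1 F2 F12) (h : A.Van (-1)) (h0 : ∀ m ∈ A.H0 0, m = 0) (z : F12) :
    z = 0 := by
  obtain ⟨n, a, ha⟩ := A.loc1 z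
  rw [A.cons1 h h0 a, map_zero] at ha
  exact ((A.T ^ n).map_eq_zero_iff).mp ha.symm

/-! ### morphisms and short exact sequences -/

section Maps

variable {G1 G2 G12 : Type*}
    [AddCommGroup G1] [Module S G1] [AddCommGroup G2] [Module S G2]
    [AddCommGroup G12] [Module S G12]
variable {Q1 Q2 Q12 : Type*}
    [AddCommGroup Q1] [Module S Q1] [AddCommGroup Q2] [Module S Q2]
    [AddCommGroup Q12] [Module S Q12]

/-- morphisms of two-chart modules -/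
structure Mor (A : TC S F1 F2 F12) (B : TC S G1 G2 G12) where
  f1 : F1 →ₗ[S] G1
  f2 : F2 →ₗ[S] G2
  f12 : F12 →ₗ[S] G12
  c1 : ∀ a, B.r1 (f1 a) = f12 (A.r1 a)
  c2 : ∀ b, B.r2 (f2 b) = f12 (A.r2 b)
  cT : ∀ z, B.T (f12 z) = f12 (A.T z)

namespace Mor

variable {A : TC S F1 F2 F12} {B : TC S G1 G2 G12} {C : TC S Q1 Q2 Q12}

theorem cT_inv (f : Mor A B) (z : F12) : B.T⁻¹ (f.f12 z) = f.f12 (A.T⁻¹ z) := by
  have := f.cT (A.T⁻¹ z)
  rw [T_inv_T] at this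
  rw [← this, inv_T_T]

theorem cT_zpow (f : Mor A B) (n : ℤ) (z : F12) : (B.T ^ n) (f.f12 z) = f.f12 ((A.T ^ n) z) := by
  induction n generalizing z with
  | zero => simp
  | succ n ih =>
    rw [zpow_apply_add, zpow_apply_add, zpow_one, zpow_one, f.cT, ih]
  | pred n ih =>
    rw [sub_eq_add_neg, zpow_apply_add, zpow_apply_add, zpow_neg_one, zpow_neg_one, f.cT_inv, ih]

/-- the induced map on sections -/
theorem map_H0 (f : Mor A B) {n : ℤ} {m : F1 × F2} (hm : m ∈ A.H0 n) :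
    (f.f1 m.1, f.f2 m.2) ∈ B.H0 n := by
  rw [mem_H0] at *
  dsimp only
  rw [f.c1, f.c2, f.cT_zpow, hm]

/-- `H^1 = 0` passes to quotients -/
theorem van_quot (f : Mor A B) (h12 : Function.Surjective f.f12) {n : ℤ} (h : A.Van n) :
    B.Van n := by
  intro z
  obtain ⟨z', rfl⟩ := h12 z
  obtain ⟨a, b, hab⟩ := h z'
  refine ⟨f.f1 a, f.f2 b, ?_⟩
  rw [hab, map_add, f.c1, f.c2, f.cT_zpow]

/-- right exactness of `H^0` when `H^1` of the kernel vanishes -/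
theorem surj_of_van (i : Mor A B) (p : Mor B C)
    (hp1 : Function.Surjective p.f1) (hp2 : Function.Surjective p.f2)
    (ex12 : ∀ z, p.f12 z = 0 → ∃ w, i.f12 w = z)
    (z1 : ∀ a, p.f1 (i.f1 a) = 0) (z2 : ∀ b, p.f2 (i.f2 b) = 0)
    {n : ℤ} (h : A.Van n) {m : Q1 × Q2} (hm : m ∈ C.H0 n) :
    ∃ m' ∈ B.H0 n, (p.f1 m'.1, p.f2 m'.2) = m := by
  obtain ⟨a, b⟩ := m
  obtain ⟨a', rfl⟩ := hp1 a
  obtain ⟨b', rfl⟩ := hp2 b
  rw [mem_H0] at hm
  dsimp only at hm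
  obtain ⟨w, hw⟩ := ex12 (B.r1 a' - (B.T ^ n) (B.r2 b')) (by
    rw [map_sub, ← p.c1, ← p.cT_zpow, ← p.c2, hm, sub_self])
  obtain ⟨x, y, hxy⟩ := h w
  refine ⟨(a' - i.f1 x, b' + i.f2 y), ?_, ?_⟩
  · rw [mem_H0]
    dsimp only
    rw [map_sub, map_add, map_add, i.c1, i.c2, i.cT_zpow]
    have : i.f12 w = i.f12 (A.r1 x) + i.f12 ((A.T ^ n) (A.r2 y)) := by rw [hxy, map_add]
    rw [this] at hw
    rw [sub_eq_iff_eq_add]
    have h2 := sub_eq_iff_eq_add.mp hw.symm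
    rw [h2]
    abel
  · dsimp only
    rw [map_sub, map_add, z1, z2, sub_zero, add_zero]

/-- converse: surjectivity on sections and `H^1 = 0` in the middle give `H^1 = 0` for the kernel -/
theorem van_of_surj (i : Mor A B) (p : Mor B C)
    (i12 : Function.Injective i.f12)
    (ex1 : ∀ a, p.f1 a = 0 → ∃ w, i.f1 w = a) (ex2 : ∀ b, p.f2 b = 0 → ∃ w, i.f2 w = b)
    (z12 : ∀ a, p.f12 (i.f12 a) = 0)
    {n : ℤ} (h : B.Van n)
    (hs : ∀ m ∈ C.H0 n, ∃ m' ∈ B.H0 n, (p.f1 m'.1, p.f2 m'.2) = m) : A.Van n := by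
  intro e
  obtain ⟨a, b, hab⟩ := h (i.f12 e)
  have h0 : p.f12 (B.r1 a) + p.f12 ((B.T ^ n) (B.r2 b)) = 0 := by
    rw [← map_add, ← hab, z12]
  obtain ⟨m', hm', hm2⟩ := hs (p.f1 a, - p.f2 b) (by
    rw [mem_H0]
    dsimp only
    rw [map_neg, map_neg, p.c1, p.c2, p.cT_zpow]
    exact eq_neg_of_add_eq_zero_left h0)
  obtain ⟨e1, e2⟩ := Prod.ext_iff.mp hm2
  dsimp only at e1 e2
  obtain ⟨x, hx⟩ := ex1 (a - m'.1) (by rw [map_sub, e1, sub_self])
  obtain ⟨y, hy⟩ := ex2 (b + m'.2) (by rw [map_add, e2, add_neg_cancel])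
  refine ⟨x, y, i12 ?_⟩
  rw [map_add, ← i.c1, ← i.cT_zpow, ← i.c2, hx, hy, hab, map_sub, map_add, map_add,
    A_aux hm']
  abel
where
  A_aux {n : ℤ} {m' : G1 × G2} (hm' : m' ∈ B.H0 n) : B.r1 m'.1 = (B.T ^ n) (B.r2 m'.2) := hm'

/-- left exactness -/
theorem ker_H0 (i : Mor A B) (p : Mor B C)
    (i12 : Function.Injective i.f12)
    (ex1 : ∀ a, p.f1 a = 0 → ∃ w, i.f1 w = a) (ex2 : ∀ b, p.f2 b = 0 → ∃ w, i.f2 w = b)
    {n : ℤ} {m : G1 × G2} (hm : m ∈ B.H0 n) (h : (p.f1 m.1, p.f2 m.2) = 0) :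
    ∃ m' ∈ A.H0 n, (i.f1 m'.1, i.f2 m'.2) = m := by
  obtain ⟨e1, e2⟩ := Prod.ext_iff.mp h
  obtain ⟨x, hx⟩ := ex1 m.1 e1
  obtain ⟨y, hy⟩ := ex2 m.2 e2
  refine ⟨(x, y), ?_, Prod.ext hx hy⟩
  rw [mem_H0] at *
  apply i12
  dsimp only
  rw [← i.c1, ← i.cT_zpow, ← i.c2, hx, hy, hm]

end Mor

end Maps

/-! ### twists -/

/-- the twist by `n` -/
def twist (A : TC S F1 F2 F12) (n : ℤ) : TC S F1 F2 F12 where
  t1 := A.t1
  t2 := A.t2
  T := A.T
  r1 := A.r1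
  r2 := (A.T ^ n).toLinearMap ∘ₗ A.r2
  h1 := A.h1
  h2 b := by
    simp only [LinearMap.comp_apply, LinearEquiv.coe_coe]
    rw [A.h2, ← zpow_neg_one, ← zpow_apply_add, ← zpow_apply_add, add_comm]
  loc1 := A.loc1
  loc2 z := by
    obtain ⟨k, b, hb⟩ := A.loc2 ((A.T ^ (-n)) z)
    refine ⟨k, b, ?_⟩
    simp only [LinearMap.comp_apply, LinearEquiv.coe_coe]
    rw [hb, inv_pow, ← zpow_natCast, ← zpow_neg, ← zpow_apply_add, ← zpow_apply_add]
    congr 2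
    ring
  ker1 := A.ker1
  ker2 b hb := by
    simp only [LinearMap.comp_apply, LinearEquiv.coe_coe] at hb
    exact A.ker2 b (((A.T ^ n).map_eq_zero_iff).mp hb)

theorem H0_twist (A : TC S F1 F2 F12) (n m : ℤ) : (A.twist n).H0 m = A.H0 (m + n) := by
  ext x
  rw [mem_H0, mem_H0, zpow_apply_add]
  rfl

theorem van_twist (A : TC S F1 F2 F12) (n m : ℤ) : (A.twist n).Van m ↔ A.Van (m + n) := by
  unfold Van
  simp only [zpow_apply_add]
  rfl

/-- multiplication by `s1 ^ n` -/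
def s1pow (A : TC S F1 F2 F12) (n : ℕ) : Mor A (A.twist n) where
  f1 := LinearMap.id
  f2 := A.t2 ^ n
  f12 := LinearMap.id
  c1 _ := rfl
  c2 b := by
    change (A.T ^ (n : ℤ)) (A.r2 ((A.t2 ^ n) b)) = A.r2 b
    rw [A.T_pow_r2, zpow_natCast, inv_pow]
    exact (A.T ^ n).apply_symm_apply _
  cT _ := rfl

/-- multiplication by `s2 ^ n` -/
def s2pow (A : TC S F1 F2 F12) (n : ℕ) : Mor A (A.twist n) where
  f1 := A.t1 ^ n
  f2 := LinearMap.id
  f12 := (A.T ^ n).toLinearMap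
  c1 a := by
    change A.r1 ((A.t1 ^ n) a) = _
    rw [A.T_pow_r1]
    rfl
  c2 b := by
    change (A.T ^ (n : ℤ)) (A.r2 b) = _
    rw [zpow_natCast]
    rfl
  cT z := by
    change A.T ((A.T ^ n) z) = (A.T ^ n) (A.T z)
    rw [← LinearEquiv.mul_apply, ← LinearEquiv.mul_apply, ← pow_succ, ← pow_succ']

/-! ### vanishing for large twists -/

/-- `s` generates `F1` over `S[t1]` -/
def Gen1 (A : TC S F1 F2 F12) (s : Set F1) : Prop :=
  ∀ N : Submodule S F1, (∀ a ∈ N, A.t1 a ∈ N) → s ⊆ N → N = ⊤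

theorem van_large (A : TC S F1 F2 F12) (s : Finset F1) (hs : A.Gen1 (s : Set F1)) :
    ∃ k : ℕ, A.Van k := by
  classical
  have h1 : ∃ k : ℕ, ∀ a ∈ s, ∃ b, A.r1 a = (A.T ^ k) (A.r2 b) := by
    clear hs
    induction s using Finset.induction_on with
    | empty => exact ⟨0, by simp⟩
    | insert a s _ ih =>
      obtain ⟨k, hk⟩ := ih
      obtain ⟨n, b, hb⟩ := A.exists_mem_H0 a
      rw [mem_H0] at hb
      dsimp only at hb
      refine ⟨n + k, ?_⟩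
      intro c hc
      rw [Finset.mem_insert] at hc
      rcases hc with rfl | hc
      · refine ⟨(A.t2 ^ k) b, ?_⟩
        rw [A.T_pow_r2, hb, pow_add, LinearEquiv.mul_apply, inv_pow, zpow_natCast]
        congr 1
        exact ((A.T ^ k).apply_symm_apply _).symm
      · obtain ⟨d, hd⟩ := hk c hc
        refine ⟨(A.t2 ^ n) d, ?_⟩
        rw [A.T_pow_r2, hd, add_comm, pow_add, LinearEquiv.mul_apply, inv_pow]
        congr 1
        exact ((A.T ^ n).apply_symm_apply _).symm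
  obtain ⟨k, hk⟩ := h1
  refine ⟨k, ?_⟩
  let N : Submodule S F1 :=
    { carrier := {a | ∀ m : ℕ, ∃ c d, ((A.T⁻¹) ^ m) (A.r1 a) = A.r1 c + (A.T ^ (k : ℤ)) (A.r2 d)}
      add_mem' := by
        intro a b ha hb m
        obtain ⟨c, d, h⟩ := ha m
        obtain ⟨c', d', h'⟩ := hb m
        refine ⟨c + c', d + d', ?_⟩
        rw [map_add, map_add, h, h', map_add, map_add, map_add]
        abel
      zero_mem' := by
        intro m
        exact ⟨0, 0, by simp⟩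
      smul_mem' := by
        intro r a ha m
        obtain ⟨c, d, h⟩ := ha m
        refine ⟨r • c, r • d, ?_⟩
        rw [map_smul, map_smul, h, map_smul, map_smul, map_smul, smul_add] }
  have hN : N = ⊤ := by
    apply hs
    · intro a ha m
      cases m with
      | zero => exact ⟨A.t1 a, 0, by simp⟩
      | succ m =>
        obtain ⟨c, d, h⟩ := ha m
        refine ⟨c, d, ?_⟩
        rw [A.h1, pow_succ, LinearEquiv.mul_apply, inv_T_T, h]
    · intro a ha m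
      obtain ⟨b, hb⟩ := hk a ha
      refine ⟨0, (A.t2 ^ m) b, ?_⟩
      rw [map_zero, zero_add, A.T_pow_r2, hb, zpow_natCast, inv_pow, ← zpow_natCast A.T m,
        ← zpow_natCast A.T k, ← zpow_neg, ← zpow_apply_add, ← zpow_apply_add, add_comm]
  intro z
  obtain ⟨n, a, ha⟩ := A.loc1 z
  have : a ∈ N := by rw [hN]; trivial
  obtain ⟨c, d, h⟩ := this n
  refine ⟨c, d, ?_⟩
  rw [← h, ha, inv_pow]
  exact ((A.T ^ n).symm_apply_apply _).symm

end TC

end MP55c1e7
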