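/-
MP_55c1e7_ag, box B: finiteness of `H⁰` and `H¹` of a two-chart datum over a noetherian ring, and
compatibility of `H⁰` with localisation of the base ring.
-/
import Mathlib
import Pool.Agent.Lib.MP_55c1e7_ag.B.FinOp
import Pool.Agent.Lib.MP_55c1e7_ag.B.TwoChart

namespace MP55c1e7

open FinGen

namespace TC

variable {S : Type*} [CommRing S] {F1 F2 F12 : Type*}
    [AddCommGroup F1] [Module S F1] [AddCommGroup F2] [Module S F2]
    [AddCommGroup F12] [Module S F12]

theorem finOp_t1 (A : TC S F1 F2 F12) {s : Set F1} (hfin : s.Finite) (hs : A.Gen1 s) :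
    FinOp A.t1 ⊤ :=
  ⟨s, hfin, fun _ _ => trivial, fun p hp hst => by rw [hs p hst hp]⟩

theorem finOp_range (A : TC S F1 F2 F12) {s : Set F1} (hfin : s.Finite) (hs : A.Gen1 s) :
    FinOp (A.T : F12 →ₗ[S] F12) (LinearMap.range A.r1) := by
  refine ⟨A.r1 '' s, hfin.image _, ?_, ?_⟩
  · rintro _ ⟨a, -, rfl⟩
    exact ⟨a, rfl⟩
  · intro p hp hst
    have h := hs (p.comap A.r1) (by
      intro a ha
      have h2 := hst _ ha
      change A.r1 (A.t1 a) ∈ p
      rw [A.h1]
      exact h2) (by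
      intro a ha
      exact hp ⟨a, ha, rfl⟩)
    rintro _ ⟨a, rfl⟩
    have : a ∈ p.comap A.r1 := by rw [h]; trivial
    exact this

theorem ker_fg [IsNoetherianRing S] (A : TC S F1 F2 F12) {s : Set F1} (hfin : s.Finite)
    (hs : A.Gen1 s) : (LinearMap.ker A.r1).FG := by
  have hst : ∀ m ∈ LinearMap.ker A.r1, A.t1 m ∈ LinearMap.ker A.r1 := by
    intro m hm
    rw [LinearMap.mem_ker] at hm ⊢
    rw [A.h1, hm, map_zero]
  exact ((A.finOp_t1 hfin hs).of_le le_top hst).fg_of_nilp hst fun m hm => A.ker1 m hm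

theorem H0_zero_fg [IsNoetherianRing S] (A : TC S F1 F2 F12) {s : Set F1} (hfin : s.Finite)
    (hs : A.Gen1 s) {s' : Set F2} (hfin' : s'.Finite) (hs' : A.swap.Gen1 s') :
    (A.H0 0).FG := by
  apply Submodule.fg_of_fg_map_of_fg_inf_ker (A.r1 ∘ₗ LinearMap.fst S F1 F2)
  · have h : (A.H0 0).map (A.r1 ∘ₗ LinearMap.fst S F1 F2) =
        LinearMap.range A.r1 ⊓ LinearMap.range A.r2 := by
      ext z
      constructor
      · rintro ⟨⟨a, b⟩, hm, rfl⟩
        refine ⟨⟨a, rfl⟩, ⟨b, ?_⟩⟩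
        change (a, b) ∈ A.H0 0 at hm
        rw [mem_H0] at hm
        change A.r2 b = A.r1 a
        dsimp only at hm
        rw [hm]; simp
      · rintro ⟨⟨a, rfl⟩, ⟨b, hb⟩⟩
        refine ⟨(a, b), ?_, rfl⟩
        change (a, b) ∈ A.H0 0
        rw [mem_H0]
        simp [hb]
    rw [h]
    apply fg_inf A.T (A.finOp_range hfin hs) (A.swap.finOp_range hfin' hs')
    intro v _
    obtain ⟨n, a, ha⟩ := A.loc1 v
    exact ⟨n, a, by rw [ha, zpow_natCast]⟩
  · have h : A.H0 0 ⊓ LinearMap.ker (A.r1 ∘ₗ LinearMap.fst S F1 F2) =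
        (LinearMap.ker A.r1).prod (LinearMap.ker A.r2) := by
      ext ⟨a, b⟩
      rw [Submodule.mem_inf, mem_H0, LinearMap.mem_ker, Submodule.mem_prod, LinearMap.mem_ker,
        LinearMap.mem_ker]
      simp only [LinearMap.comp_apply, LinearMap.fst_apply, zpow_zero, LinearEquiv.coe_one, id_eq]
      constructor
      · rintro ⟨h1, h2⟩
        exact ⟨h2, by rw [← h1, h2]⟩
      · rintro ⟨h1, h2⟩
        exact ⟨by rw [h1, h2], h1⟩
    rw [h]
    exact (A.ker_fg hfin hs).prod (A.swap.ker_fg hfin' hs')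

theorem gen1_twist (A : TC S F1 F2 F12) (n : ℤ) {s : Set F1} : (A.twist n).Gen1 s ↔ A.Gen1 s :=
  Iff.rfl

theorem gen1_twist_swap (A : TC S F1 F2 F12) (n : ℤ) {s : Set F2} :
    (A.twist n).swap.Gen1 s ↔ A.swap.Gen1 s :=
  Iff.rfl

/-- `H⁰` of every twist is a finitely generated module. -/
theorem H0_fg [IsNoetherianRing S] (A : TC S F1 F2 F12) {s : Set F1} (hfin : s.Finite)
    (hs : A.Gen1 s) {s' : Set F2} (hfin' : s'.Finite) (hs' : A.swap.Gen1 s') (n : ℤ) :
    (A.H0 n).FG := by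
  have := (A.twist n).H0_zero_fg hfin ((A.gen1_twist n).2 hs) hfin' ((A.gen1_twist_swap n).2 hs')
  rwa [H0_twist, zero_add] at this

theorem H0_finite [IsNoetherianRing S] (A : TC S F1 F2 F12) {s : Set F1} (hfin : s.Finite)
    (hs : A.Gen1 s) {s' : Set F2} (hfin' : s'.Finite) (hs' : A.swap.Gen1 s') (n : ℤ) :
    Module.Finite S (A.H0 n) :=
  Module.Finite.iff_fg.2 (A.H0_fg hfin hs hfin' hs' n)

/-- `H¹` of every twist is a finitely generated module (no noetherian hypothesis). -/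
theorem H1_finite (A : TC S F1 F2 F12) {s : Set F1} (hfin : s.Finite)
    (hs : A.Gen1 s) (n : ℤ) :
    Module.Finite S (F12 ⧸ (LinearMap.range A.r1 ⊔
      LinearMap.range ((A.T ^ n).toLinearMap ∘ₗ A.r2))) := by
  have hP : Pair A.T ⊤ (LinearMap.range A.r1)
      (LinearMap.range ((A.T ^ n).toLinearMap ∘ₗ A.r2)) :=
    { le₁ := le_top
      le₂ := le_top
      st := fun _ _ => trivial
      st' := fun _ _ => trivial
      st₁ := by
        rintro _ ⟨a, rfl⟩
        exact ⟨A.t1 a, A.h1 a⟩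
      st₂ := by
        rintro _ ⟨b, rfl⟩
        exact ⟨A.t2 b, (A.twist n).h2 b⟩
      ex₁ := fun v _ => by
        obtain ⟨m, a, ha⟩ := A.loc1 v
        exact ⟨m, a, by rw [ha, zpow_natCast]⟩
      ex₂ := fun v _ => by
        obtain ⟨m, b, hb⟩ := (A.twist n).loc2 v
        refine ⟨m, b, ?_⟩
        have e : ((A.twist n).T)⁻¹ ^ m = A.T ^ (-(m : ℤ)) := by
          change A.T⁻¹ ^ m = _
          rw [inv_pow, zpow_neg, zpow_natCast]
        rw [← e]
        exact hb }
  obtain ⟨G, hG, -, hle⟩ := hP.fg_quot (A.finOp_range hfin hs)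
  have htop : (LinearMap.range A.r1 ⊔ LinearMap.range ((A.T ^ n).toLinearMap ∘ₗ A.r2)) ⊔
      Submodule.span S G = ⊤ := by
    refine top_le_iff.1 (hle.trans (sup_le (sup_le ?_ ?_) ?_))
    · exact le_sup_right
    · exact le_sup_left.trans le_sup_left
    · exact le_sup_right.trans le_sup_left
  rw [Module.finite_def, ← (Submodule.map_mkQ_eq_top _ _).2 htop]
  exact (Submodule.fg_span hG).map _

/-! ### localisation -/

/-- elementwise: `l` is the localisation at the powers of `a` (apart from `a` being invertible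
on the target) -/
structure LocAt {M N : Type*} [AddCommGroup M] [Module S M] [AddCommGroup N] [Module S N]
    (a : S) (l : M →ₗ[S] N) : Prop where
  surj : ∀ y, ∃ (n : ℕ) (x : M), l x = a ^ n • y
  inj : ∀ x, l x = 0 → ∃ n : ℕ, a ^ n • x = 0

theorem LocAt.isLocalizedModule {M N : Type*} [AddCommGroup M] [Module S M] [AddCommGroup N]
    [Module S N] {a : S} {l : M →ₗ[S] N} (h : LocAt a l)
    (ha : Function.Bijective fun y : N => a • y) : IsLocalizedModule (Submonoid.powers a) l := by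
  have hpow : ∀ n : ℕ, Function.Bijective fun y : N => a ^ n • y := by
    intro n
    induction n with
    | zero =>
      have : (fun y : N => a ^ 0 • y) = id := by
        funext y
        simp
      rw [this]
      exact Function.bijective_id
    | succ n ih =>
      have : (fun y : N => a ^ (n + 1) • y) = (fun y => a • y) ∘ (fun y => a ^ n • y) := by
        funext y
        simp only [Function.comp, pow_succ', mul_smul]
      rw [this]
      exact ha.comp ih
  refine ⟨?_, ?_, ?_⟩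
  · rintro ⟨_, n, rfl⟩
    rw [Module.End.isUnit_iff]
    exact hpow n
  · intro y
    obtain ⟨n, x, hx⟩ := h.surj y
    exact ⟨(x, ⟨a ^ n, n, rfl⟩), hx.symm⟩
  · intro x y hxy
    obtain ⟨n, hn⟩ := h.inj (x - y) (by rw [map_sub, hxy, sub_self])
    exact ⟨⟨a ^ n, n, rfl⟩, by
      change a ^ n • x = a ^ n • y
      rw [← sub_eq_zero, ← smul_sub, hn]⟩

theorem LocAt.of_isLocalizedModule {M N : Type*} [AddCommGroup M] [Module S M] [AddCommGroup N]
    [Module S N] {a : S} {l : M →ₗ[S] N} [h : IsLocalizedModule (Submonoid.powers a) l] :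
    LocAt a l := by
  refine ⟨?_, ?_⟩
  · intro y
    obtain ⟨⟨x, ⟨_, n, rfl⟩⟩, hx⟩ := IsLocalizedModule.surj (Submonoid.powers a) l y
    exact ⟨n, x, hx.symm⟩
  · intro x hx
    obtain ⟨⟨_, n, rfl⟩, hn⟩ := IsLocalizedModule.exists_of_eq (S := Submonoid.powers a)
      (f := l) (x₁ := x) (x₂ := 0) (by rw [hx, map_zero])
    rw [smul_zero] at hn
    exact ⟨n, hn⟩

section Loc

variable {G1 G2 G12 : Type*}
    [AddCommGroup G1] [Module S G1] [AddCommGroup G2] [Module S G2]
    [AddCommGroup G12] [Module S G12]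

/-- the induced map on `H⁰` -/
def Mor.H0map {A : TC S F1 F2 F12} {B : TC S G1 G2 G12} (f : Mor A B) (n : ℤ) :
    A.H0 n →ₗ[S] B.H0 n where
  toFun m := ⟨(f.f1 m.1.1, f.f2 m.1.2), f.map_H0 m.2⟩
  map_add' x y := by
    ext <;> simp
  map_smul' c x := by
    ext <;> simp

@[simp] theorem Mor.H0map_coe {A : TC S F1 F2 F12} {B : TC S G1 G2 G12} (f : Mor A B) (n : ℤ)
    (m : A.H0 n) : (f.H0map n m : G1 × G2) = (f.f1 m.1.1, f.f2 m.1.2) := rfl

theorem Mor.surj_loc {A : TC S F1 F2 F12} {B : TC S G1 G2 G12} (f : Mor A B) {a : S}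
    (h1 : LocAt a f.f1) (h2 : LocAt a f.f2) (h12 : LocAt a f.f12) {n : ℤ} {m : G1 × G2}
    (hm : m ∈ B.H0 n) : ∃ (k : ℕ) (m' : F1 × F2), m' ∈ A.H0 n ∧
      (f.f1 m'.1, f.f2 m'.2) = a ^ k • m := by
  obtain ⟨x, y⟩ := m
  obtain ⟨k1, u, hu⟩ := h1.surj x
  obtain ⟨k2, v, hv⟩ := h2.surj y
  rw [mem_H0] at hm
  dsimp only at hm
  have h0 : f.f12 (A.r1 (a ^ k2 • u) - (A.T ^ n) (A.r2 (a ^ k1 • v))) = 0 := by
    rw [map_sub, ← f.cT_zpow, ← f.c1, ← f.c2, map_smul, map_smul, map_smul, map_smul, map_smul,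
      hu, hv, map_smul, map_smul, hm, map_smul]
    rw [smul_smul, smul_smul, mul_comm, sub_self]
  obtain ⟨k, hk⟩ := h12.inj _ h0
  refine ⟨k + (k2 + k1), (a ^ k • a ^ k2 • u, a ^ k • a ^ k1 • v), ?_, ?_⟩
  · rw [mem_H0]
    dsimp only
    rw [map_smul, map_smul A.r2, map_smul (A.T ^ n)]
    rw [smul_sub, sub_eq_zero] at hk
    exact hk
  · ext
    · change f.f1 (a ^ k • a ^ k2 • u) = a ^ (k + (k2 + k1)) • x
      rw [map_smul, map_smul, hu, smul_smul, smul_smul]
      congr 1; ring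
    · change f.f2 (a ^ k • a ^ k1 • v) = a ^ (k + (k2 + k1)) • y
      rw [map_smul, map_smul, hv, smul_smul, smul_smul]
      congr 1; ring

theorem Mor.inj_loc {A : TC S F1 F2 F12} {B : TC S G1 G2 G12} (f : Mor A B) {a : S}
    (h1 : LocAt a f.f1) (h2 : LocAt a f.f2) {m : F1 × F2}
    (h : (f.f1 m.1, f.f2 m.2) = 0) : ∃ k : ℕ, a ^ k • m = 0 := by
  obtain ⟨e1, e2⟩ := Prod.ext_iff.mp h
  obtain ⟨k1, hk1⟩ := h1.inj _ e1
  obtain ⟨k2, hk2⟩ := h2.inj _ e2
  refine ⟨k1 + k2, ?_⟩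
  ext
  · change a ^ (k1 + k2) • m.1 = 0
    rw [add_comm, pow_add, mul_smul, hk1, smul_zero]
  · change a ^ (k1 + k2) • m.2 = 0
    rw [pow_add, mul_smul, hk2, smul_zero]

theorem Mor.H0_locAt {A : TC S F1 F2 F12} {B : TC S G1 G2 G12} (f : Mor A B) {a : S}
    (h1 : LocAt a f.f1) (h2 : LocAt a f.f2) (h12 : LocAt a f.f12) (n : ℤ) :
    LocAt a (f.H0map n) := by
  refine ⟨?_, ?_⟩
  · intro m
    obtain ⟨k, m', hm', e⟩ := f.surj_loc h1 h2 h12 m.2
    exact ⟨k, ⟨m', hm'⟩, Subtype.ext e⟩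
  · intro m hm
    obtain ⟨k, hk⟩ := f.inj_loc h1 h2 (m := m.1) (by
      have := congrArg Subtype.val hm
      exact this)
    exact ⟨k, Subtype.ext hk⟩

/-- `H⁰` commutes with localisation of the base ring. -/
theorem Mor.H0_isLocalizedModule {A : TC S F1 F2 F12} {B : TC S G1 G2 G12} (f : Mor A B) {a : S}
    [IsLocalizedModule (Submonoid.powers a) f.f1] [IsLocalizedModule (Submonoid.powers a) f.f2]
    [IsLocalizedModule (Submonoid.powers a) f.f12] (n : ℤ) :
    IsLocalizedModule (Submonoid.powers a) (f.H0map n) := by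
  apply (f.H0_locAt LocAt.of_isLocalizedModule LocAt.of_isLocalizedModule
    LocAt.of_isLocalizedModule n).isLocalizedModule
  have e1 : Function.Bijective fun y : G1 => a • y := by
    have := IsLocalizedModule.map_units (S := Submonoid.powers a) f.f1 ⟨a, 1, by simp⟩
    rwa [Module.End.isUnit_iff] at this
  have e2 : Function.Bijective fun y : G2 => a • y := by
    have := IsLocalizedModule.map_units (S := Submonoid.powers a) f.f2 ⟨a, 1, by simp⟩
    rwa [Module.End.isUnit_iff] at this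
  have e12 : Function.Bijective fun y : G12 => a • y := by
    have := IsLocalizedModule.map_units (S := Submonoid.powers a) f.f12 ⟨a, 1, by simp⟩
    rwa [Module.End.isUnit_iff] at this
  constructor
  · intro x y hxy
    have h := congrArg Subtype.val hxy
    apply Subtype.ext
    exact Prod.ext (e1.1 (congrArg Prod.fst h)) (e2.1 (congrArg Prod.snd h))
  · intro y
    obtain ⟨u, hu⟩ := e1.2 y.1.1
    obtain ⟨v, hv⟩ := e2.2 y.1.2
    refine ⟨⟨(u, v), ?_⟩, ?_⟩
    · rw [mem_H0]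
      dsimp only
      apply e12.1
      dsimp only at hu hv ⊢
      rw [← map_smul, hu, ← map_smul (B.T ^ n), ← map_smul B.r2, hv]
      exact y.2
    · apply Subtype.ext
      exact Prod.ext hu hv

end Loc

end TC

end MP55c1e7
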