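/-
MP_55c1e7_ag, box B1: composition of equivalences of bounded derived categories.
-/
import Mathlib

open CategoryTheory CategoryTheory.Limits CategoryTheory.Pretriangulated

namespace MP55c1e7

/-- two equivalences with a common target -/
theorem equiv_trans_symm (k : Type*) [Ring k]
    {C₁ C₂ C₃ : Type*} [Category* C₁] [Category* C₂] [Category* C₃]
    [HasZeroObject C₁] [HasZeroObject C₂] [HasZeroObject C₃]
    [HasShift C₁ ℤ] [HasShift C₂ ℤ] [HasShift C₃ ℤ]
    [Preadditive C₁] [Preadditive C₂] [Preadditive C₃]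
    [Linear k C₁] [Linear k C₂] [Linear k C₃]
    [∀ n : ℤ, (shiftFunctor C₁ n).Additive] [∀ n : ℤ, (shiftFunctor C₂ n).Additive]
    [∀ n : ℤ, (shiftFunctor C₃ n).Additive]
    [Pretriangulated C₁] [Pretriangulated C₂] [Pretriangulated C₃]
    (h₁ : ∃ (e : C₁ ≌ C₃) (_ : e.functor.CommShift ℤ),
      e.functor.IsTriangulated ∧ e.functor.Linear k)
    (h₂ : ∃ (e : C₂ ≌ C₃) (_ : e.functor.CommShift ℤ),
      e.functor.IsTriangulated ∧ e.functor.Linear k) :
    ∃ (e : C₁ ≌ C₂) (_ : e.functor.CommShift ℤ),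
      e.functor.IsTriangulated ∧ e.functor.Linear k := by
  obtain ⟨e₁, s₁, t₁, l₁⟩ := h₁
  obtain ⟨e₂, s₂, t₂, l₂⟩ := h₂
  let _ := e₂.commShiftInverse ℤ
  have := e₂.commShift_of_functor ℤ
  have : e₂.inverse.IsTriangulated := e₂.toAdjunction.isTriangulated_rightAdjoint
  have : e₂.inverse.Linear k := e₂.inverseLinear k
  refine ⟨e₁.trans e₂.symm, inferInstanceAs ((e₁.functor ⋙ e₂.inverse).CommShift ℤ), ?_, ?_⟩
  · exact inferInstanceAs (e₁.functor ⋙ e₂.inverse).IsTriangulated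
  · exact inferInstanceAs ((e₁.functor ⋙ e₂.inverse).Linear k)

end MP55c1e7
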