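/-
MP_55c1e7_ag, box B: from tilting data on two abelian categories with the same target to the
predicate `BadRed.DbEquivalent` of the statement.
-/
import Pool.Agent.Lib.MP_55c1e7_ag.Defs
import Pool.Agent.Lib.MP_55c1e7_ag.TiltE
import Pool.Agent.Lib.MP_55c1e7_ag.B.EquivTS

open CategoryTheory CategoryTheory.Limits CategoryTheory.Pretriangulated

namespace MP55c1e7

/-- The form of the derived equivalence used in this development. -/
def DbEq (k : Type) [CommRing k] (C D : Type 1) [Category.{0} C] [Abelian C] [Linear k C]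
    [Category.{0} D] [Abelian D] [Linear k D] : Prop :=
  letI := HasDerivedCategory.standard C
  letI := HasDerivedCategory.standard D
  ∃ (e : BadRed.Db C ≌ BadRed.Db D) (_ : e.functor.CommShift ℤ),
      e.functor.IsTriangulated ∧ e.functor.Linear k

theorem DbEq.of_tilt (k : Type) [CommRing k] {C D : Type 1} [Category.{0} C] [Abelian C]
    [Linear k C] [Category.{0} D] [Abelian D] [Linear k D] (Psi : C ⥤ D) [Psi.Additive]
    [Psi.Linear k] [PreservesFiniteLimits Psi] (E P : ObjectProperty C) (h : TiltData Psi E P)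
    (hemb : ∀ X : C, ∃ (Y : C) (i : X ⟶ Y), E Y ∧ Mono i) : DbEq k C D := by
  let _ := HasDerivedCategory.standard C
  let _ := HasDerivedCategory.standard D
  exact h.exists_equiv k hemb

theorem DbEq.trans_symm (k : Type) [CommRing k] {C₁ C₂ C₃ : Type 1}
    [Category.{0} C₁] [Abelian C₁] [Linear k C₁] [Category.{0} C₂] [Abelian C₂] [Linear k C₂]
    [Category.{0} C₃] [Abelian C₃] [Linear k C₃] (h₁ : DbEq k C₁ C₃) (h₂ : DbEq k C₂ C₃) :
    DbEq k C₁ C₂ := by
  let _ := HasDerivedCategory.standard C₁
  let _ := HasDerivedCategory.standard C₂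
  let _ := HasDerivedCategory.standard C₃
  exact equiv_trans_symm k h₁ h₂

theorem DbEq.dbEquivalent (k : Type) [CommRing k] {C D : Type 1} [Category.{0} C] [Abelian C]
    [Linear k C] [Category.{0} D] [Abelian D] [Linear k D] (h : DbEq k C D) :
    BadRed.DbEquivalent k C D := by
  let _ := HasDerivedCategory.standard C
  let _ := HasDerivedCategory.standard D
  obtain ⟨e, s, t, l⟩ := h
  exact ⟨e.functor, s, inferInstance, t, inferInstance, l⟩

end MP55c1e7
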